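import Pool.Agent.H42.XS.Targets

/-!
Module CLA: the clauses of the equations.
-/

namespace Pool.Agent.H14.XS

open Finset Pool.Agent.H60.SYM Pool.Agent.H42.XS

theorem toB_inj (a b : ZMod 2) (h : toB (a + 1) = toB (b + 1)) : a = b := by
  revert a b
  unfold toB
  decide

theorem toB_xor (a f : ZMod 2) : xor (decide (f = 1)) (toB (a + 1)) = toB (a + f + 1) := by
  revert a f
  unfold toB
  decide

theorem toB_ne (a : ZMod 2) (x : Bool) : x ≠ toB (a + 1) ↔ toZ x = a := by
  revert a x
  unfold toB Pool.Agent.H60.SYM.toZ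
  decide

theorem image_fst {n d : ℕ} (v : Fin (d + 1) → Fin n) (a : Fin (d + 1) → ZMod 2) :
    (cla v a).1.image Prod.fst = univ.image v := by
  change (univ.image fun p => (v p, toB (a p + 1))).image Prod.fst = univ.image v
  rw [image_image]
  rfl

theorem pf_CLA : T_CLA := by
  intro n d
  refine ⟨?_, ?_, ?_, ?_⟩
  · intro v w a b hv h
    refine ⟨by rw [← image_fst v a, ← image_fst w b, h], ?_⟩
    rintro rfl
    funext p
    have h1 : (v p, toB (a p + 1)) ∈ (cla v a).1 := mem_image.2 ⟨p, mem_univ p, rfl⟩
    rw [h] at h1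
    obtain ⟨q, -, hq⟩ := mem_image.1 h1
    rw [Prod.mk.injEq] at hq
    have h2 : q = p := hv hq.1
    subst h2
    exact toB_inj _ _ hq.2.symm
  · intro v a f
    apply Subtype.ext
    change (univ.image fun p => (v p, toB (a p + 1))).image (exL f) =
      univ.image fun p => (v p, toB (a p + f (v p) + 1))
    rw [image_image]
    refine image_congr fun p _ => ?_
    change (v p, xor (decide (f (v p) = 1)) (toB (a p + 1))) = (v p, toB (a p + f (v p) + 1))
    rw [toB_xor]
  · intro v a hv
    rw [image_fst, card_image_of_injective _ hv, card_univ, Fintype.card_fin]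
  · intro v a x
    unfold Violated
    constructor
    · intro h p
      exact (toB_ne _ _).1 (h (v p, toB (a p + 1)) (mem_image.2 ⟨p, mem_univ p, rfl⟩))
    · intro h l hl
      obtain ⟨p, -, rfl⟩ := mem_image.1 hl
      exact (toB_ne _ _).2 (h p)

end Pool.Agent.H14.XS
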