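import Pool.Agent.H42.XS.Targets

/-!
Module EX: the action of the exchanges on clauses.
-/

namespace Pool.Agent.H14.XS

open Finset Pool.Agent.H60.SYM Pool.Agent.H42.XS

theorem dec_add (a b : ZMod 2) : decide (a + b = 1) = xor (decide (a = 1)) (decide (b = 1)) := by
  revert a b
  decide

theorem exL_add {n : ℕ} (f g : Fin n → ZMod 2) (l : Fin n × Bool) :
    exL (f + g) l = exL f (exL g l) := by
  unfold exL
  simp only [Pi.add_apply, dec_add, Bool.xor_assoc]

theorem exL_zero {n : ℕ} (l : Fin n × Bool) : exL 0 l = l := by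
  unfold exL
  simp

theorem exch_add {n k : ℕ} (f g : Fin n → ZMod 2) (D : Cl n k) :
    exch (f + g) D = exch f (exch g D) := by
  apply Subtype.ext
  change D.1.image (exL (f + g)) = (D.1.image (exL g)).image (exL f)
  rw [image_image]
  refine image_congr fun l _ => ?_
  exact exL_add f g l

theorem exch_zero {n k : ℕ} (D : Cl n k) : exch 0 D = D := by
  apply Subtype.ext
  change D.1.image (exL 0) = D.1
  have : (exL (0 : Fin n → ZMod 2)) = id := by
    funext l
    exact exL_zero l
  rw [this, image_id]

theorem add_self_fun {n : ℕ} (f : Fin n → ZMod 2) : f + f = 0 := by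
  funext v
  exact CharTwo.add_self_eq_zero (f v)

theorem exch_exch {n k : ℕ} (f : Fin n → ZMod 2) (D : Cl n k) : exch f (exch f D) = D := by
  rw [← exch_add, add_self_fun, exch_zero]

theorem violated_exch {n k : ℕ} (f : Fin n → ZMod 2) (x : Fin n → Bool) (D : Cl n k) :
    Violated x (exch f D) ↔ Violated (fun v => xor (decide (f v = 1)) (x v)) D := by
  unfold Violated exch
  simp only [mem_image, forall_exists_index, and_imp]
  constructor
  · intro h l hl h1
    refine h (exL f l) l hl rfl ?_
    unfold exL
    simp only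
    rw [← h1, ← Bool.xor_assoc, Bool.xor_self, Bool.false_xor]
  · rintro h l' l hl rfl h1
    refine h l hl ?_
    unfold exL at h1
    simp only at h1
    rw [h1, ← Bool.xor_assoc, Bool.xor_self, Bool.false_xor]

theorem sat_exch {n k : ℕ} (f : Fin n → ZMod 2) (φ : Cl n k → Bool)
    (h : Satisfiable φ) : Satisfiable (fun D => φ (exch f D)) := by
  obtain ⟨x, hx⟩ := h
  refine ⟨fun v => xor (decide (f v = 1)) (x v), fun D hD hv => ?_⟩
  exact hx (exch f D) hD ((violated_exch f x D).2 hv)

theorem pf_EX : T_EX := by
  intro n k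
  refine ⟨exch_add, exch_zero, fun f φ => ⟨fun h => ?_, sat_exch f φ⟩⟩
  have h1 := sat_exch f _ h
  have h2 : (fun D : Cl n k => φ (exch f (exch f D))) = φ := by
    funext D
    rw [exch_exch]
  rwa [h2] at h1

end Pool.Agent.H14.XS
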